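import Pool.Agent.P8H9.TQ.Stm

/-!
# Project TQ, packages FEJ and TEL (helper5)
-/

set_option autoImplicit false

namespace Pool.Agent.P8H5.TQ

open Pool.Agent.P8H9.TQ

theorem dn_nonneg (t : ℝ) : 0 ≤ dn t := abs_nonneg _

theorem dn_le (t : ℝ) : dn t ≤ 1 / 2 := abs_sub_round t

theorem dn_add_int (t : ℝ) (n : ℤ) : dn (t + n) = dn t := by
  unfold dn
  rw [round_add_intCast]
  push_cast
  congr 1
  ring

theorem dn_fract (t : ℝ) : dn t = min (Int.fract t) (1 - Int.fract t) := by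
  unfold dn
  exact abs_sub_round_eq_min t

theorem dn_two (t : ℝ) : dn (2 * t) = min (2 * dn t) (1 - 2 * dn t) := by
  have h0 := Int.fract_nonneg t
  have h1 := Int.fract_lt_one t
  have e : 2 * t = 2 * Int.fract t + ((2 * ⌊t⌋ : ℤ) : ℝ) := by
    have := Int.floor_add_fract t
    push_cast
    linarith
  rw [e, dn_add_int, dn_fract, dn_fract t]
  rcases lt_or_ge (Int.fract t) (1 / 2) with h | h
  · have : Int.fract (2 * Int.fract t) = 2 * Int.fract t :=
      Int.fract_eq_self.2 ⟨by linarith, by linarith⟩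
    rw [this, min_eq_left (by linarith : Int.fract t ≤ 1 - Int.fract t)]
  · have : Int.fract (2 * Int.fract t) = 2 * Int.fract t - 1 := by
      rw [Int.fract_eq_iff]
      exact ⟨by linarith, by linarith, 1, by push_cast; ring⟩
    rw [this, min_eq_right (by linarith : 1 - Int.fract t ≤ Int.fract t), min_comm]
    congr 1 <;> ring

theorem Bf_two (t : ℝ) : 2 * dn t = Bf (2 * t) - 4 * Bf t + 1 / 2 := by
  unfold Bf
  rw [dn_two]
  rcases min_choice (2 * dn t) (1 - 2 * dn t) with h | h <;> rw [h] <;> ring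

theorem Bf_le (t : ℝ) : Bf t ≤ 1 / 6 := by
  unfold Bf
  nlinarith [dn_nonneg t, dn_le t]

theorem tel_eq (n : ℕ) (t : ℝ) : ∑ m ∈ Finset.range n, (1 / 4 : ℝ) ^ (m + 1) * (2 * dn (2 ^ m * t)) =
    1 / 6 - Bf t + (1 / 4 : ℝ) ^ n * (Bf (2 ^ n * t) - 1 / 6) := by
  induction n with
  | zero => simp
  | succ n ih =>
    rw [Finset.sum_range_succ, ih, Bf_two]
    have : (2 : ℝ) * (2 ^ n * t) = 2 ^ (n + 1) * t := by ring
    rw [this]
    ring

theorem t_TEL : S_TEL := by
  intro n t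
  rw [tel_eq]
  have h := Bf_le (2 ^ n * t)
  have : (1 / 4 : ℝ) ^ n * (Bf (2 ^ n * t) - 1 / 6) ≤ 0 :=
    mul_nonpos_of_nonneg_of_nonpos (by positivity) (by linarith)
  linarith

theorem fejer_aux (L : ℕ) (θ : ℝ) :
    2 * ∑ k ∈ Finset.range L, ((L : ℝ) - k) * Real.cos (k * θ) - L =
      (∑ j ∈ Finset.range L, Real.cos (j * θ)) ^ 2 + (∑ j ∈ Finset.range L, Real.sin (j * θ)) ^ 2 := by
  induction L with
  | zero => simp
  | succ L ih =>
    have h1 : ∑ k ∈ Finset.range (L + 1), (((L + 1 : ℕ) : ℝ) - k) * Real.cos (k * θ) =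
        ∑ k ∈ Finset.range L, ((L : ℝ) - k) * Real.cos (k * θ) +
          ∑ k ∈ Finset.range (L + 1), Real.cos (k * θ) := by
      rw [Finset.sum_range_succ, Finset.sum_range_succ (fun k : ℕ => Real.cos (k * θ)), ← add_assoc,
        ← Finset.sum_add_distrib]
      congr 1
      · refine Finset.sum_congr rfl fun k _ => ?_
        push_cast
        ring
      · push_cast
        ring
    have h2 : Real.cos (L * θ) * ∑ j ∈ Finset.range L, Real.cos (j * θ) +
        Real.sin (L * θ) * ∑ j ∈ Finset.range L, Real.sin (j * θ) =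
          ∑ k ∈ Finset.range (L + 1), Real.cos (k * θ) - 1 := by
      rw [Finset.sum_range_succ', Finset.mul_sum, Finset.mul_sum, ← Finset.sum_add_distrib,
        ← Finset.sum_range_reflect (fun k : ℕ => Real.cos (((k + 1 : ℕ) : ℝ) * θ))]
      simp only [Nat.cast_zero, zero_mul, Real.cos_zero, add_sub_cancel_right]
      refine Finset.sum_congr rfl fun j hj => ?_
      rw [Finset.mem_range] at hj
      rw [← Real.cos_sub]
      congr 1
      have : L - 1 - j + 1 = L - j := by omega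
      rw [this, Nat.cast_sub hj.le]
      ring
    rw [h1, Finset.sum_range_succ (fun k : ℕ => Real.cos (k * θ)),
      Finset.sum_range_succ (fun k : ℕ => Real.sin (k * θ))]
    rw [Finset.sum_range_succ (fun k : ℕ => Real.cos (k * θ))] at h2
    have h3 := Real.cos_sq_add_sin_sq (L * θ)
    push_cast
    nlinarith [ih, h2, h3]

/-- Fejér: the sum is nonnegative -/
theorem fejer (L : ℕ) (hL : 1 ≤ L) (θ : ℝ) :
    -(1 / 2) ≤ ∑ k ∈ Finset.Ico 1 L, (1 - (k : ℝ) / L) * Real.cos (k * θ) := by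
  have hL0 : (0 : ℝ) < L := by exact_mod_cast hL
  have h := fejer_aux L θ
  have h4 : 0 ≤ (∑ j ∈ Finset.range L, Real.cos (j * θ)) ^ 2 + (∑ j ∈ Finset.range L, Real.sin (j * θ)) ^ 2 := by
    positivity
  rw [← h, Finset.range_eq_Ico, Finset.sum_eq_sum_Ico_succ_bot hL] at h4
  simp only [Nat.cast_zero, sub_zero, zero_mul, Real.cos_zero, mul_one, zero_add] at h4
  have h5 : ∑ k ∈ Finset.Ico 1 L, (1 - (k : ℝ) / L) * Real.cos (k * θ) =
      (1 / L) * ∑ k ∈ Finset.Ico 1 L, ((L : ℝ) - k) * Real.cos (k * θ) := by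
    rw [Finset.mul_sum]
    refine Finset.sum_congr rfl fun k _ => ?_
    field_simp
  rw [h5, ← mul_le_mul_iff_right₀ hL0]
  field_simp
  linarith

theorem Bf_eq (t : ℝ) : Bf t = Int.fract t ^ 2 - Int.fract t + 1 / 6 := by
  unfold Bf
  rw [dn_fract]
  rcases min_choice (Int.fract t) (1 - Int.fract t) with h | h <;> rw [h]
  ring

theorem Bf_hasSum (t : ℝ) :
    HasSum (fun n : ℕ => 1 / (n : ℝ) ^ 2 * Real.cos (2 * Real.pi * n * t)) (Real.pi ^ 2 * Bf t) := by
  have h := hasSum_one_div_nat_pow_mul_cos (k := 1) one_ne_zero (x := Int.fract t)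
    ⟨Int.fract_nonneg t, (Int.fract_lt_one t).le⟩
  have hb : (Polynomial.map (algebraMap ℚ ℝ) (Polynomial.bernoulli (2 * 1))).eval (Int.fract t) = Bf t := by
    rw [Bf_eq, Polynomial.bernoulli_def]
    simp [Finset.sum_range_succ, bernoulli_two, Nat.choose]
    ring
  rw [hb] at h
  have e1 : (-1 : ℝ) ^ (1 + 1) * (2 * Real.pi) ^ (2 * 1) / 2 / ((2 * 1).factorial : ℝ) = Real.pi ^ 2 := by
    norm_num [Nat.factorial]
    ring
  rw [e1] at h
  convert h using 2 with n
  rw [mul_one]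
  congr 1
  have e2 : 2 * Real.pi * n * t = 2 * Real.pi * n * Int.fract t + ((n * ⌊t⌋ : ℤ) : ℝ) * (2 * Real.pi) := by
    have := Int.floor_add_fract t
    push_cast
    rw [← this]
    simp only [Int.floor_intCast_add, Int.fract_intCast_add, Int.floor_fract, Int.fract_fract, add_zero]
    ring
  rw [e2, Real.cos_add_int_mul_two_pi]

theorem t_FEJ : S_FEJ := by
  intro L t hL
  have hs : HasSum (fun n : ℕ => ∑ k ∈ Finset.Ico 1 L, (1 - (k : ℝ) / L) *
      (1 / (n : ℝ) ^ 2 * Real.cos (2 * Real.pi * n * (k * t))))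
      (∑ k ∈ Finset.Ico 1 L, (1 - (k : ℝ) / L) * (Real.pi ^ 2 * Bf (k * t))) :=
    hasSum_sum fun k _ => (Bf_hasSum (k * t)).mul_left _
  have hz : HasSum (fun n : ℕ => 1 / (n : ℝ) ^ 2) (Real.pi ^ 2 / 6) := hasSum_zeta_two
  have hz2 := hz.mul_left (-(1 / 2 : ℝ))
  have hle := hasSum_le (fun n => ?_) hz2 hs
  · have hp : 0 < Real.pi ^ 2 := by positivity
    have e : ∑ k ∈ Finset.Ico 1 L, (1 - (k : ℝ) / L) * (Real.pi ^ 2 * Bf (k * t)) =
        Real.pi ^ 2 * ∑ k ∈ Finset.Ico 1 L, (1 - (k : ℝ) / L) * Bf (k * t) := by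
      rw [Finset.mul_sum]
      refine Finset.sum_congr rfl fun k _ => ?_
      ring
    rw [e] at hle
    rw [← mul_le_mul_iff_right₀ hp]
    linarith
  · have h := fejer L hL (2 * Real.pi * n * t)
    have e : ∑ k ∈ Finset.Ico 1 L, (1 - (k : ℝ) / L) * (1 / (n : ℝ) ^ 2 * Real.cos (2 * Real.pi * n * (k * t))) =
        (1 / (n : ℝ) ^ 2) * ∑ k ∈ Finset.Ico 1 L, (1 - (k : ℝ) / L) * Real.cos (k * (2 * Real.pi * n * t)) := by
      rw [Finset.mul_sum]
      refine Finset.sum_congr rfl fun k _ => ?_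
      rw [show (k : ℝ) * (2 * Real.pi * n * t) = 2 * Real.pi * n * (k * t) by ring]
      ring
    rw [e]
    have h0 : 0 ≤ 1 / (n : ℝ) ^ 2 := by positivity
    nlinarith

end Pool.Agent.P8H5.TQ
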