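import Pool.Agent.P8H9.TQ.Stm

/-!
# Project TQ, package LAW (helper5): levels of the points of the curve at a complex place
-/

set_option autoImplicit false

namespace Pool.Agent.P8H5.TQ

open WeierstrassCurve Pool.Agent.H901R3.MS Pool.Agent.Y673.Loc Pool.Agent.W275.FM Pool.Agent.P8H9.TQ

theorem clp_mem (h : ℝ) (hh : h ≤ 1) (z : ℂ) : h ≤ clp h z ∧ clp h z ≤ 1 := by
  unfold clp
  exact ⟨le_max_right _ _, max_le (min_le_right _ _) hh⟩

theorem lev_mem (h : ℝ) (h0 : 0 < h) (hh : h ≤ 1) (z : ℂ) : 0 ≤ lev h z ∧ lev h z ≤ -Real.log h := by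
  obtain ⟨h1, h2⟩ := clp_mem h hh z
  unfold lev
  constructor
  · have := Real.log_nonpos (h0.le.trans h1) h2
    linarith
  · have := Real.log_le_log h0 h1
    linarith

theorem Lev_mem (e η : ℂ) (h0 : 0 < ‖η / (3 * e)‖) (hh : ‖η / (3 * e)‖ ≤ 1) (P : Pt (cA e η) (cB e η)) :
    0 ≤ Lev e η P ∧ Lev e η P ≤ -Real.log ‖η / (3 * e)‖ := by
  rcases P with _ | ⟨x, y, h⟩
  · refine ⟨le_rfl, ?_⟩
    have := Real.log_nonpos h0.le hh
    show (0 : ℝ) ≤ _
    linarith
  · exact lev_mem _ h0 hh _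

theorem Lev_neg (e η : ℂ) (P : Pt (cA e η) (cB e η)) : Lev e η (-P) = Lev e η P := by
  rcases P with _ | ⟨x, y, h⟩
  · rfl
  · rw [Affine.Point.neg_some]
    rfl

theorem disc_ne (e η : ℂ) (he : e ≠ 0) (hη : η ≠ 0) (h : ‖η / (3 * e)‖ ≤ 1 / 1000) :
    Disc (cA e η) (cB e η) := by
  unfold Disc
  have e1 : (2 : ℂ) * (4 * cA e η ^ 3 + 27 * cB e η ^ 2) =
      -(2 * (2 * η * ((η - 3 * e) * (η + 3 * e))) ^ 2) := by
    unfold cA cB; ring
  rw [e1]
  have h3e : 3 * e ≠ 0 := mul_ne_zero (by norm_num) he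
  have hm : η - 3 * e ≠ 0 := by
    intro h1
    have : η = 3 * e := by linear_combination h1
    rw [this, div_self h3e, norm_one] at h
    norm_num at h
  have hp : η + 3 * e ≠ 0 := by
    intro h1
    have : η = -(3 * e) := by linear_combination h1
    rw [this, neg_div, div_self h3e, norm_neg, norm_one] at h
    norm_num at h
  exact neg_ne_zero.2 (mul_ne_zero two_ne_zero (pow_ne_zero 2 (mul_ne_zero (mul_ne_zero two_ne_zero hη)
    (mul_ne_zero hm hp))))

theorem near_mono {c c' s t p q : ℝ} (h : Near c s t p q) (hc : c ≤ c') : Near c' s t p q := by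
  rcases h with ⟨h1, h2⟩ | ⟨h1, h2⟩
  · exact Or.inl ⟨h1.trans hc, h2.trans hc⟩
  · exact Or.inr ⟨h1.trans hc, h2.trans hc⟩

theorem near_of_eq {c s t p q : ℝ} (hc : 0 ≤ c) (h1 : s = p) (h2 : t = q) : Near c s t p q := by
  left
  rw [h1, h2, sub_self, sub_self, abs_zero]
  exact ⟨hc, hc⟩

/-- the doubling argument: a point `R` with the homogeneous coordinates of the double -/
theorem dblarg (c : ℝ) (hd1 : ∀ (h : ℝ) (ε z zd : ℂ), 0 < h → h ≤ 1 / 1000 → ‖ε‖ = h ^ 2 →
    (z + 1) * (z ^ 2 - ε) ≠ 0 → 4 * (z + 1) * (z ^ 2 - ε) * zd = (z ^ 2 - ε) ^ 2 + 4 * ε * (z + 1) ^ 2 →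
    |lev h zd - min (2 * lev h z) (2 * -Real.log h - 2 * lev h z)| ≤ c)
    (hd2 : ∀ (h : ℝ) (ε z : ℂ), 0 < h → h ≤ 1 / 1000 → ‖ε‖ = h ^ 2 → (z + 1) * (z ^ 2 - ε) = 0 →
      min (2 * lev h z) (2 * -Real.log h - 2 * lev h z) = 0) (hc : 0 ≤ c)
    (e η : ℂ) (he : e ≠ 0) (hη : η ≠ 0) (h : ‖η / (3 * e)‖ ≤ 1 / 1000) (x k : ℂ) (hk : k ≠ 0)
    (R : Pt (cA e η) (cB e η)) (h1 : hx R = k * fS (cA e η) (cB e η) (x * x) (x * 1 + x * 1) (1 * 1))
    (h2' : hz R = k * fT (cA e η) (cB e η) (x * x) (x * 1 + x * 1) (1 * 1)) :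
    |Lev e η R - min (2 * lev ‖η / (3 * e)‖ ((x - e) / (3 * e)))
      (2 * -Real.log ‖η / (3 * e)‖ - 2 * lev ‖η / (3 * e)‖ ((x - e) / (3 * e)))| ≤ c := by
  have h3e : 3 * e ≠ 0 := mul_ne_zero (by norm_num) he
  have hh0 : 0 < ‖η / (3 * e)‖ := norm_pos_iff.2 (div_ne_zero hη h3e)
  have hε : ‖(η / (3 * e)) ^ 2‖ = ‖η / (3 * e)‖ ^ 2 := norm_pow _ _
  set X := (x - e) / (3 * e) with hX
  have hx3 : x = 3 * e * X + e := by rw [hX]; field_simp; ring
  have hT : fT (cA e η) (cB e η) (x * x) (x * 1 + x * 1) (1 * 1) =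
      (3 * e) ^ 3 * (4 * ((X + 1) * (X ^ 2 - (η / (3 * e)) ^ 2))) := by
    unfold fT cA cB
    rw [hx3]
    field_simp
    ring
  rcases R with _ | ⟨r, s, hr⟩
  · have h3 : (0 : ℂ) = k * fT (cA e η) (cB e η) (x * x) (x * 1 + x * 1) (1 * 1) := h2'
    have h4 : (X + 1) * (X ^ 2 - (η / (3 * e)) ^ 2) = 0 := by
      rw [hT] at h3
      rcases mul_eq_zero.1 h3.symm with h | h
      · exact absurd h hk
      · have h5 := (mul_eq_zero.1 h).resolve_left (pow_ne_zero 3 h3e)
        exact (mul_eq_zero.1 h5).resolve_left (by norm_num)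
    rw [hd2 _ _ _ hh0 h hε h4]
    show |(0 : ℝ) - 0| ≤ c
    rw [sub_self, abs_zero]
    exact hc
  · have h3 : (1 : ℂ) = k * fT (cA e η) (cB e η) (x * x) (x * 1 + x * 1) (1 * 1) := h2'
    have h4 : r = k * fS (cA e η) (cB e η) (x * x) (x * 1 + x * 1) (1 * 1) := h1
    have hS : fS (cA e η) (cB e η) (x * x) (x * 1 + x * 1) (1 * 1) =
        (3 * e) ^ 4 * ((X ^ 2 - (η / (3 * e)) ^ 2) ^ 2 +
          4 * (η / (3 * e)) ^ 2 * (X + 1) ^ 2) +
          e * ((3 * e) ^ 3 * (4 * ((X + 1) * (X ^ 2 - (η / (3 * e)) ^ 2)))) := by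
      unfold fS cA cB
      rw [hx3]
      field_simp
      ring
    have h5 : (X + 1) * (X ^ 2 - (η / (3 * e)) ^ 2) ≠ 0 := by
      intro h
      rw [hT, h] at h3
      simp at h3
    refine hd1 _ _ X ((r - e) / (3 * e)) hh0 h hε h5 ?_
    rw [hT] at h3
    rw [hS] at h4
    have h6 : (3 * e) ^ 3 * k ≠ 0 := mul_ne_zero (pow_ne_zero 3 h3e) hk
    apply mul_left_cancel₀ h6
    have h7 : r - e = k * ((3 * e) ^ 4 * ((X ^ 2 - (η / (3 * e)) ^ 2) ^ 2 +
          4 * (η / (3 * e)) ^ 2 * (X + 1) ^ 2)) := by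
      linear_combination h4 - e * h3
    rw [h7]
    have h8 : k * ((3 * e) ^ 4 * ((X ^ 2 - (η / (3 * e)) ^ 2) ^ 2 +
          4 * (η / (3 * e)) ^ 2 * (X + 1) ^ 2)) / (3 * e) = (3 * e) ^ 3 * k *
          ((X ^ 2 - (η / (3 * e)) ^ 2) ^ 2 +
          4 * (η / (3 * e)) ^ 2 * (X + 1) ^ 2) := by
      rw [div_eq_iff h3e]; ring
    rw [h8]
    linear_combination -((3 * e) ^ 3 * k *
          ((X ^ 2 - (η / (3 * e)) ^ 2) ^ 2 +
          4 * (η / (3 * e)) ^ 2 * (X + 1) ^ 2)) * h3

theorem t_LAW : S_LAW := by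
  rintro ⟨c1, hc1, hpair⟩ ⟨c2, hc2, hd1, hd2⟩
  refine ⟨max c1 c2, le_max_of_le_left hc1, ?_⟩
  intro _ e η he hη h
  have h3e : 3 * e ≠ 0 := mul_ne_zero (by norm_num) he
  have hh0 : 0 < ‖η / (3 * e)‖ := norm_pos_iff.2 (div_ne_zero hη h3e)
  have hh1 : ‖η / (3 * e)‖ ≤ 1 := h.trans (by norm_num)
  have hε : ‖(η / (3 * e)) ^ 2‖ = ‖η / (3 * e)‖ ^ 2 := norm_pow _ _
  have hD := disc_ne e η he hη h
  have hmem := Lev_mem e η hh0 hh1
  have hc0 : 0 ≤ max c1 c2 := le_max_of_le_left hc1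
  -- doubling
  have hdbl : ∀ P : Pt (cA e η) (cB e η),
      |Lev e η (P + P) - min (2 * Lev e η P) (2 * -Real.log ‖η / (3 * e)‖ - 2 * Lev e η P)| ≤ c2 := by
    intro P
    rcases P with _ | ⟨x, y, hxy⟩
    · have e1 : (Affine.Point.zero + Affine.Point.zero : Pt (cA e η) (cB e η)) = Affine.Point.zero := zero_add _
      rw [e1]
      have e2 : Lev e η (Affine.Point.zero) = 0 := rfl
      have := (hmem Affine.Point.zero).2
      rw [e2] at this ⊢
      rw [min_eq_left (by linarith)]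
      simpa using hc2
    · obtain ⟨k, hk, g1, g2, g3⟩ := Pool.Agent.W342.FM.AS.main ℂ two_ne_zero (cA e η) (cB e η) hD
        (Affine.Point.some x y hxy) (Affine.Point.some x y hxy)
      set P : Pt (cA e η) (cB e η) := Affine.Point.some x y hxy with hPd
      have a1 : hx P = x := rfl
      have a2 : hz P = 1 := rfl
      rw [a1, a2] at g1 g2
      have e0 : hx (P - P) = 1 := by rw [sub_self]; rfl
      have e0' : hz (P - P) = 0 := by rw [sub_self]; rfl
      rw [e0, mul_one] at g1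
      rw [e0, e0', mul_zero, zero_add, one_mul] at g2
      exact dblarg c2 hd1 hd2 hc2 e η he hη h x k hk (P + P) g1 g2
  refine ⟨hmem, ?_, ?_⟩
  · intro P Q
    have hP := hmem P
    have hQ := hmem Q
    rcases P with _ | ⟨x, y, hxy⟩
    · have e1 : (Q + Affine.Point.zero : Pt (cA e η) (cB e η)) = Q := add_zero _
      have e2 : (Q - Affine.Point.zero : Pt (cA e η) (cB e η)) = Q := sub_zero _
      have e3 : Lev e η (Affine.Point.zero) = 0 := rfl
      rw [e1, e2, e3, zero_sub, abs_neg, abs_of_nonneg hQ.1, zero_add, sub_zero,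
        min_eq_left (by linarith)]
      exact near_of_eq hc0 rfl rfl
    rcases Q with _ | ⟨x', y', hxy'⟩
    · have e1 : (Affine.Point.zero + Affine.Point.some x y hxy : Pt (cA e η) (cB e η)) =
        Affine.Point.some x y hxy := zero_add _
      have e2 : (Affine.Point.zero - Affine.Point.some x y hxy : Pt (cA e η) (cB e η)) =
        -Affine.Point.some x y hxy := zero_sub _
      have e3 : Lev e η (Affine.Point.zero) = 0 := rfl
      rw [e1, e2, e3, Lev_neg, sub_zero, abs_of_nonneg hP.1, add_zero, sub_zero,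
        min_eq_left (by linarith)]
      exact near_of_eq hc0 rfl rfl
    by_cases hxx : x' = x
    · -- `Q = ± P`
      have hor : (Affine.Point.some x' y' hxy' : Pt (cA e η) (cB e η)) = Affine.Point.some x y hxy ∨
          (Affine.Point.some x' y' hxy' : Pt (cA e η) (cB e η)) = -Affine.Point.some x y hxy := by
        have e1 := eqn_of hxy
        have e2 := eqn_of hxy'
        unfold Eqn at e1 e2
        rw [hxx] at e2
        have h3 : (y' - y) * (y' + y) = 0 := by linear_combination e2 - e1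
        rcases mul_eq_zero.1 h3 with h | h
        · left
          have : y' = y := by linear_combination h
          subst hxx; subst this; rfl
        · right
          have : y' = -y := by linear_combination h
          subst hxx; subst this
          rw [neg_some' hxy hxy']
      set P : Pt (cA e η) (cB e η) := Affine.Point.some x y hxy with hPd
      have hd := hdbl P
      have hmin : min (Lev e η P + Lev e η P) (2 * -Real.log ‖η / (3 * e)‖ - Lev e η P - Lev e η P) =
          min (2 * Lev e η P) (2 * -Real.log ‖η / (3 * e)‖ - 2 * Lev e η P) := by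
        congr 1 <;> ring
      have hz0 : Lev e η (0 : Pt (cA e η) (cB e η)) = 0 := rfl
      rcases hor with h | h
      · rw [h, sub_self, sub_self, abs_zero, hmin, hz0]
        right
        refine ⟨hd.trans (le_max_right _ _), ?_⟩
        rw [sub_self, abs_zero]
        exact hc0
      · rw [h, neg_add_cancel, Lev_neg, sub_self, abs_zero, hmin, hz0]
        left
        refine ⟨by rw [sub_self, abs_zero]; exact hc0, ?_⟩
        have e4 : -P - P = -(P + P) := by abel
        rw [e4, Lev_neg]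
        exact hd.trans (le_max_right _ _)
    · obtain ⟨k, hk, g1, g2, g3⟩ := Pool.Agent.W342.FM.AS.main ℂ two_ne_zero (cA e η) (cB e η) hD
        (Affine.Point.some x' y' hxy') (Affine.Point.some x y hxy)
      have hPl : Lev e η (Affine.Point.some x y hxy) = lev ‖η / (3 * e)‖ ((x - e) / (3 * e)) := rfl
      have hQl : Lev e η (Affine.Point.some x' y' hxy') = lev ‖η / (3 * e)‖ ((x' - e) / (3 * e)) := rfl
      rw [hPl, hQl]
      set P : Pt (cA e η) (cB e η) := Affine.Point.some x y hxy with hPd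
      set Q : Pt (cA e η) (cB e η) := Affine.Point.some x' y' hxy' with hQd
      have a1 : hx P = x := rfl
      have a2 : hz P = 1 := rfl
      have a3 : hx Q = x' := rfl
      have a4 : hz Q = 1 := rfl
      rw [a1, a3] at g1
      rw [a2, a4] at g1
      rw [a1, a2, a3, a4] at g2
      rw [a1, a2, a3, a4] at g3
      have hW : fW (x' * x) (x' * 1 + x * 1) (1 * 1) ≠ 0 := by
        unfold fW
        have : (x' * 1 + x * 1) ^ 2 - 4 * (x' * x) * (1 * 1) = (x' - x) ^ 2 := by ring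
        rw [this]
        exact pow_ne_zero 2 (sub_ne_zero.2 hxx)
      have hne : hz (Q + P) * hz (Q - P) ≠ 0 := by
        rw [g3]; exact mul_ne_zero hk hW
      have hz1 : ∀ R : Pt (cA e η) (cB e η), hz R ≠ 0 → hz R = 1 ∧
          Lev e η R = lev ‖η / (3 * e)‖ ((hx R - e) / (3 * e)) := by
        intro R hR
        rcases R with _ | ⟨r, s, hr⟩
        · exact absurd rfl hR
        · exact ⟨rfl, rfl⟩
      obtain ⟨z1, l1⟩ := hz1 _ (left_ne_zero_of_mul hne)
      obtain ⟨z2, l2⟩ := hz1 _ (right_ne_zero_of_mul hne)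
      rw [z1, z2] at g3
      rw [z1, z2] at g2
      rw [l1, l2]
      set p := (hx (Q + P) - e) / (3 * e) with hp
      set m := (hx (Q - P) - e) / (3 * e) with hm
      set X := (x - e) / (3 * e) with hX
      set X' := (x' - e) / (3 * e) with hX'
      have px : hx (Q + P) = 3 * e * p + e := by rw [hp]; field_simp; ring
      have mx : hx (Q - P) = 3 * e * m + e := by rw [hm]; field_simp; ring
      have xx : x = 3 * e * X + e := by rw [hX]; field_simp; ring
      have xx' : x' = 3 * e * X' + e := by rw [hX']; field_simp; ring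
      have g3' : k * (3 * e) ^ 2 * (X - X') ^ 2 = 1 := by
        have : fW (x' * x) (x' * 1 + x * 1) (1 * 1) = (3 * e) ^ 2 * (X - X') ^ 2 := by
          unfold fW; rw [xx, xx']; ring
        rw [this] at g3
        linear_combination -g3
      set δ := (η / (3 * e)) ^ 2 with hδ
      have hη2 : η ^ 2 = (3 * e) ^ 2 * δ := by rw [hδ]; field_simp
      have hA : cA e η = -3 * e ^ 2 - (3 * e) ^ 2 * δ := by unfold cA; rw [hη2]
      have hB : cB e η = 2 * e ^ 3 - 2 * e * ((3 * e) ^ 2 * δ) := by unfold cB; rw [hη2]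
      have g2' : p + m = k * (3 * e) ^ 2 * (2 * (X * X' - δ) * (X + X' + 2)) := by
        apply mul_left_cancel₀ h3e
        have hT : fT (cA e η) (cB e η) (x' * x) (x' * 1 + x * 1) (1 * 1) =
            (3 * e) ^ 3 * (2 * (X * X' - δ) * (X + X' + 2)) +
            2 * e * ((3 * e) ^ 2 * (X - X') ^ 2) := by
          unfold fT; rw [hA, hB, xx, xx']; ring
        rw [hT, px, mx] at g2
        linear_combination g2 + 2 * e * g3'
      have g1' : p * m = k * (3 * e) ^ 2 * ((X * X' + δ) ^ 2 + 4 * δ * (X + X' + 1)) := by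
        apply mul_left_cancel₀ (pow_ne_zero 2 h3e)
        have hS : fS (cA e η) (cB e η) (x' * x) (x' * 1 + x * 1) (1 * 1) =
            (3 * e) ^ 4 * ((X * X' + δ) ^ 2 + 4 * δ * (X + X' + 1)) +
            e * ((3 * e) ^ 3 * (2 * (X * X' - δ) * (X + X' + 2))) +
            e ^ 2 * ((3 * e) ^ 2 * (X - X') ^ 2) := by
          unfold fS; rw [hA, hB, xx, xx']; ring
        rw [hS, px, mx] at g1
        linear_combination g1 - 3 * e ^ 2 * g2' + e ^ 2 * g3'
      have f1 : (X - X') ^ 2 * (p * m) = (X * X' - δ) ^ 2 + 4 * δ * (X + 1) * (X' + 1) := by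
        rw [g1']
        linear_combination ((X * X' + δ) ^ 2 + 4 * δ * (X + X' + 1)) * g3'
      have f2 : (X - X') ^ 2 * (p + m) = 2 * (X * X' - δ) * (2 + X + X') := by
        rw [g2']
        linear_combination (2 * (X * X' - δ) * (X + X' + 2)) * g3'
      have hXX : X ≠ X' := by
        intro h
        apply hxx
        rw [xx, xx', h]
      exact near_mono (hpair _ δ X X' p m hh0 h hε hXX f2 f1) (le_max_left _ _)
  · intro P
    have := hdbl P
    rw [two_nsmul]
    exact this.trans (le_max_right _ _)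

end Pool.Agent.P8H5.TQ
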